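import Pool.Agent.Q155.AltChar.Proof

/-!
Q1 of MP_3827cc_co is false: for `n = 8`, `λ = (5, 3)` and `N = 3` one has
`A_N(λ) = 4` and `B_N(λ) = 8`.
-/

set_option autoImplicit false

namespace Pool.Agent.Results.MP_3827cc_co.FailsAtThree

open Q155.AltChar

/-- There is a partition `λ` of `8`, namely `(5, 3)`, with `A_3(λ) = 4` and `B_3(λ) = 8`. -/
theorem result : ∃ lam : Nat.Partition 8, lam.parts = {5, 3} ∧ A 3 lam = 4 ∧ B 3 lam = 8 :=
  main

end Pool.Agent.Results.MP_3827cc_co.FailsAtThree
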